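import Pool.Agent.helper71.SP.C

set_option autoImplicit false
set_option linter.unusedVariables false

/-!
# MP_d67941_lc, module D1: the local operation is computable within polynomial bounds
-/

namespace Pool.Agent.helper12.SP

/-! ### numerical bounds -/

theorem D1_pw_le (N a r : ℕ) : pw N a r ≤ N := min_le_right _ _

theorem D1_dg_le (N a s r : ℕ) : dg N a s r ≤ s :=
  (Nat.mod_le _ _).trans (Nat.div_le_self _ _)

theorem D1_gs_le (N q M D z : ℕ) : gs N q M D z ≤ D * (M * N) := by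
  unfold gs
  calc _ ≤ ∑ y ∈ Finset.range D, M * N := by
        apply Finset.sum_le_sum
        intro y _
        apply Nat.mul_le_mul _ (D1_pw_le _ _ _)
        split_ifs
        · exact D1_dg_le _ _ _ _
        · exact Nat.zero_le _
    _ = D * (M * N) := by simp

theorem D1_gi_le (N q M D z m : ℕ) : gi N q M D z m ≤ z + D * (M * N) := by
  cases m with
  | zero => exact Nat.le_add_right _ _
  | succ m => exact (D1_gs_le _ _ _ _ _).trans (Nat.le_add_left _ _)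

theorem D1_pm_le (p m e : ℕ) (hp : 1 ≤ p) : pm p m e ≤ p := by
  cases e with
  | zero => exact (Nat.mod_lt _ hp).le
  | succ e => exact (Nat.mod_lt _ hp).le

theorem D1_up_le (N p s r v : ℕ) (hp : 1 ≤ p) : up N p s r v ≤ s + p * N := by
  unfold up
  exact Nat.add_le_add (Nat.sub_le _ _) (Nat.mul_le_mul (Nat.mod_lt _ hp).le (D1_pw_le _ _ _))

/-- the rounds `0, …, j-1` of `lz` -/
theorem D1_lz_iter_le (N p : ℕ) (hp : 1 ≤ p) (s : ℕ) (r v : ℕ → ℕ → ℕ) (j : ℕ) :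
    (Nat.rec (motive := fun _ => ℕ) s (fun i ih => up N p ih (r i ih) (v i ih)) j : ℕ) ≤
      s + j * (p * N) := by
  induction j with
  | zero => simp
  | succ j ih =>
    refine (D1_up_le _ _ _ _ _ hp).trans ?_
    calc _ ≤ s + j * (p * N) + p * N := by
          exact Nat.add_le_add_right ih _
      _ = _ := by ring

theorem D1_lz_le (N p κ q M o m z s : ℕ) (hp : 1 ≤ p) :
    lz N p κ q M o m z s ≤ s + 2 * κ * (p * N) := by
  unfold lz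
  exact D1_lz_iter_le N p hp s
    (fun i _ => ix κ q o i (dg N q (gi N q M (2 * (2 * κ)) z κ) (2 * κ + i)))
    (fun i ih => (p - pm p m (p - 1 - 2 * (2 * κ))) * wt N p κ q ih o z % p) (2 * κ)

theorem D1_lo_iter_le (N p κ q M o m s : ℕ) (hp : 1 ≤ p) (j : ℕ) :
    (Nat.rec (motive := fun _ => ℕ) s (fun z ih => lz N p κ q M o m z ih) j : ℕ) ≤
      s + j * (2 * κ) * (p * N) := by
  induction j with
  | zero => simp
  | succ j ih =>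
    refine (D1_lz_le _ _ _ _ _ _ _ _ _ hp).trans ?_
    calc _ ≤ s + j * (2 * κ) * (p * N) + 2 * κ * (p * N) := by
          exact Nat.add_le_add_right ih _
      _ = _ := by ring

theorem lo_le (N p κ q M o m s : ℕ) (hp1 : 1 ≤ p) :
    lo N p κ q M o m s ≤ s + N * (2 * κ) * (p * N) := by
  unfold lo
  refine (D1_lo_iter_le N p κ q M o m s hp1 _).trans ?_
  gcongr
  exact D1_pw_le _ _ _

/-! ### the functions -/

section D

variable {α : Type} [Ctx α] {bd N p κ q M X Z : α → ℕ}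

theorem Cmp.gs {D z : α → ℕ} (hN : Cmp bd N) (hq : Cmp bd q) (hM : Cmp bd M) (hD : Cmp bd D)
    (hz : Cmp bd z) : Cmp bd (fun a => gs (N a) (q a) (M a) (D a) (z a)) := by
  unfold SP.gs
  refine Cmp.sum (f := D) (h := fun x : α × ℕ => (if 2 ≤ x.2 then
    SP.dg (N x.1) (q x.1) (M x.1) ((SP.dg (N x.1) (q x.1) (z x.1) (x.2 - 2) * q x.1 +
      SP.dg (N x.1) (q x.1) (z x.1) (x.2 - 1)) * q x.1 + SP.dg (N x.1) (q x.1) (z x.1) x.2)
      else 0) * SP.pw (N x.1) (q x.1) x.2) hD ?_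
  have e := Cmp.i bd
  have hN' := hN.wk1
  have hq' := hq.wk1
  have hM' := hM.wk1
  have hz' := hz.wk1
  exact Cmp.mul (Cmp.ite (CmpP.le (Cmp.const 2) e) (Cmp.dg hN' hq' hM'
    (Cmp.add (Cmp.mul (Cmp.add (Cmp.mul (Cmp.dg hN' hq' hz' (Cmp.sub e (Cmp.const 2))) hq')
      (Cmp.dg hN' hq' hz' (Cmp.sub e (Cmp.const 1)))) hq') (Cmp.dg hN' hq' hz' e)))
    (Cmp.const 0)) (Cmp.pw hN' hq' e)

theorem Cmp.gi {D z m : α → ℕ} (hN : Cmp bd N) (hq : Cmp bd q) (hM : Cmp bd M) (hD : Cmp bd D)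
    (hz : Cmp bd z) (hm : Cmp bd m) :
    Cmp bd (fun a => gi (N a) (q a) (M a) (D a) (z a) (m a)) := by
  unfold SP.gi
  refine Cmp.natRec (h := fun x : α × ℕ × ℕ => SP.gs (N x.1) (q x.1) (M x.1) (D x.1) x.2.2) hz hm
    (Cmp.gs hN.wk hq.wk hM.wk hD.wk (Cmp.ih bd)) ?_
  obtain ⟨C, hC⟩ := (hz.add (hD.mul (hM.mul hN))).pb
  refine ⟨C, fun a y _ => le_trans ?_ (hC a)⟩
  exact D1_gi_le (N a) (q a) (M a) (D a) (z a) y

theorem Cmp.ix {k i b : α → ℕ} (hκ : Cmp bd κ) (hq : Cmp bd q) (hk : Cmp bd k) (hi : Cmp bd i)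
    (hb : Cmp bd b) : Cmp bd (fun a => ix (κ a) (q a) (k a) (i a) (b a)) := by
  unfold SP.ix
  exact Cmp.add (Cmp.mul (Cmp.add (Cmp.mul hk (Cmp.mul (Cmp.const 2) hκ)) hi) hq) hb

theorem Cmp.pm {m e : α → ℕ} (hp : Cmp bd p) (hp1 : ∀ a, 1 ≤ p a) (hm : Cmp bd m)
    (he : Cmp bd e) : Cmp bd (fun a => pm (p a) (m a) (e a)) := by
  unfold SP.pm
  refine Cmp.natRec (h := fun x : α × ℕ × ℕ => x.2.2 * m x.1 % p x.1)
    (Cmp.mod (Cmp.const 1) hp) he (Cmp.mod (Cmp.mul (Cmp.ih bd) hm.wk) hp.wk) ?_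
  obtain ⟨C, hC⟩ := hp.pb
  refine ⟨C, fun a y _ => le_trans ?_ (hC a)⟩
  exact D1_pm_le (p a) (m a) y (hp1 a)

theorem Cmp.up {s r v : α → ℕ} (hN : Cmp bd N) (hp : Cmp bd p) (hs : Cmp bd s) (hr : Cmp bd r)
    (hv : Cmp bd v) : Cmp bd (fun a => up (N a) (p a) (s a) (r a) (v a)) := by
  unfold SP.up
  exact Cmp.add (Cmp.sub hs (Cmp.mul (Cmp.dg hN hp hs hr) (Cmp.pw hN hp hr)))
    (Cmp.mul (Cmp.mod (Cmp.add (Cmp.dg hN hp hs hr) hv) hp) (Cmp.pw hN hp hr))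

theorem Cmp.wt {s o z : α → ℕ} (hN : Cmp bd N) (hp : Cmp bd p) (hp1 : ∀ a, 1 ≤ p a)
    (hκ : Cmp bd κ) (hq : Cmp bd q) (hs : Cmp bd s) (ho : Cmp bd o) (hz : Cmp bd z) :
    Cmp bd (fun a => wt (N a) (p a) (κ a) (q a) (s a) (o a) (z a)) := by
  unfold SP.wt
  refine Cmp.natRec (m := fun a => 2 * (2 * κ a)) (h := fun x : α × ℕ × ℕ => x.2.2 *
    SP.dg (N x.1) (p x.1) (s x.1) (SP.ix (κ x.1) (q x.1)
      (if x.2.1 < 2 * κ x.1 then (o x.1 + 2) % 3 else (o x.1 + 1) % 3)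
      (x.2.1 % (2 * κ x.1)) (SP.dg (N x.1) (q x.1) (z x.1) x.2.1)) % p x.1)
    (Cmp.mod (Cmp.const 1) hp) (Cmp.mul (Cmp.const 2) (Cmp.mul (Cmp.const 2) hκ)) ?_ ?_
  · have y := Cmp.y bd
    exact Cmp.mod (Cmp.mul (Cmp.ih bd) (Cmp.dg hN.wk hp.wk hs.wk (Cmp.ix hκ.wk hq.wk
      (Cmp.ite (CmpP.lt y (Cmp.mul (Cmp.const 2) hκ.wk))
        (Cmp.mod (Cmp.add ho.wk (Cmp.const 2)) (Cmp.const 3))
        (Cmp.mod (Cmp.add ho.wk (Cmp.const 1)) (Cmp.const 3)))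
      (Cmp.mod y (Cmp.mul (Cmp.const 2) hκ.wk)) (Cmp.dg hN.wk hq.wk hz.wk y)))) hp.wk
  · obtain ⟨C, hC⟩ := hp.pb
    refine ⟨C, fun a y _ => le_trans ?_ (hC a)⟩
    cases y with
    | zero => exact (Nat.mod_lt _ (hp1 a)).le
    | succ y => exact (Nat.mod_lt _ (hp1 a)).le

theorem Cmp.lz {o m z s : α → ℕ} (hN : Cmp bd N) (hp : Cmp bd p) (hp1 : ∀ a, 1 ≤ p a)
    (hκ : Cmp bd κ) (hq : Cmp bd q) (hM : Cmp bd M) (ho : Cmp bd o) (hm : Cmp bd m)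
    (hz : Cmp bd z) (hs : Cmp bd s) :
    Cmp bd (fun a => lz (N a) (p a) (κ a) (q a) (M a) (o a) (m a) (z a) (s a)) := by
  unfold SP.lz
  refine Cmp.natRec (m := fun a => 2 * κ a) (h := fun x : α × ℕ × ℕ => SP.up (N x.1) (p x.1)
    x.2.2 (SP.ix (κ x.1) (q x.1) (o x.1) x.2.1 (SP.dg (N x.1) (q x.1)
      (SP.gi (N x.1) (q x.1) (M x.1) (2 * (2 * κ x.1)) (z x.1) (κ x.1)) (2 * κ x.1 + x.2.1)))
    ((p x.1 - SP.pm (p x.1) (m x.1) (p x.1 - 1 - 2 * (2 * κ x.1))) *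
      SP.wt (N x.1) (p x.1) (κ x.1) (q x.1) x.2.2 (o x.1) (z x.1) % p x.1))
    hs (Cmp.mul (Cmp.const 2) hκ) ?_ ?_
  · have y := Cmp.y bd
    have ih := Cmp.ih bd
    have hp1' : ∀ x : α × ℕ × ℕ, 1 ≤ p x.1 := fun x => hp1 x.1
    have h2κ : Cmp (fun x : α × ℕ × ℕ => bd x.1 + x.2.1 + x.2.2) (fun x => 2 * κ x.1) :=
      Cmp.mul (Cmp.const 2) hκ.wk
    exact Cmp.up hN.wk hp.wk ih (Cmp.ix hκ.wk hq.wk ho.wk y (Cmp.dg hN.wk hq.wk
      (Cmp.gi hN.wk hq.wk hM.wk (Cmp.mul (Cmp.const 2) h2κ) hz.wk hκ.wk) (Cmp.add h2κ y)))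
      (Cmp.mod (Cmp.mul (Cmp.sub hp.wk (Cmp.pm hp.wk hp1' hm.wk
        (Cmp.sub (Cmp.sub hp.wk (Cmp.const 1)) (Cmp.mul (Cmp.const 2) h2κ))))
        (Cmp.wt hN.wk hp.wk hp1' hκ.wk hq.wk ih ho.wk hz.wk)) hp.wk)
  · obtain ⟨C, hC⟩ := (hs.add ((Cmp.mul (Cmp.const 2) hκ).mul (hp.mul hN))).pb
    refine ⟨C, fun a y hy => le_trans ?_ (hC a)⟩
    refine le_trans (D1_lz_iter_le (N a) (p a) (hp1 a) (s a)
      (fun i _ => SP.ix (κ a) (q a) (o a) i (SP.dg (N a) (q a)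
        (SP.gi (N a) (q a) (M a) (2 * (2 * κ a)) (z a) (κ a)) (2 * κ a + i)))
      (fun i ih => (p a - SP.pm (p a) (m a) (p a - 1 - 2 * (2 * κ a))) *
        SP.wt (N a) (p a) (κ a) (q a) ih (o a) (z a) % p a) y) ?_
    exact Nat.add_le_add_left (Nat.mul_le_mul_right _ hy) _

theorem Cmp.lo {o m s : α → ℕ} (hN : Cmp bd N) (hp : Cmp bd p) (hp1 : ∀ a, 1 ≤ p a)
    (hκ : Cmp bd κ) (hq : Cmp bd q) (hM : Cmp bd M) (ho : Cmp bd o) (hm : Cmp bd m)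
    (hs : Cmp bd s) :
    Cmp bd (fun a => lo (N a) (p a) (κ a) (q a) (M a) (o a) (m a) (s a)) := by
  unfold SP.lo
  refine Cmp.natRec (m := fun a => SP.pw (N a) (q a) (2 * (2 * κ a)))
    (h := fun x : α × ℕ × ℕ => SP.lz (N x.1) (p x.1) (κ x.1) (q x.1) (M x.1) (o x.1) (m x.1)
      x.2.1 x.2.2)
    hs (Cmp.pw hN hq (Cmp.mul (Cmp.const 2) (Cmp.mul (Cmp.const 2) hκ)))
    (Cmp.lz hN.wk hp.wk (fun x => hp1 x.1) hκ.wk hq.wk hM.wk ho.wk hm.wk (Cmp.y bd) (Cmp.ih bd)) ?_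
  obtain ⟨C, hC⟩ := (hs.add ((hN.mul (Cmp.mul (Cmp.const 2) hκ)).mul (hp.mul hN))).pb
  refine ⟨C, fun a y hy => le_trans ?_ (hC a)⟩
  refine le_trans (D1_lo_iter_le (N a) (p a) (κ a) (q a) (M a) (o a) (m a) (s a) (hp1 a) y) ?_
  have : y ≤ N a := hy.trans (D1_pw_le _ _ _)
  exact Nat.add_le_add_left (Nat.mul_le_mul_right _ (Nat.mul_le_mul_right _ this)) _

end D

end Pool.Agent.helper12.SP
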