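import Pool.Agent.helper18.SP.D1

set_option autoImplicit false
set_option linter.unusedVariables false

/-!
# MP_d67941_lc, module D2: the leaf operation, the instructions and the result are computable
within polynomial bounds
-/

namespace Pool.Agent.helper12.SP

theorem D2_lf_iter_le (N p κ q X Z c o s : ℕ) (hp : 1 ≤ p) (j : ℕ) :
    (Nat.rec (motive := fun _ => ℕ) s (fun i ih => up N p ih (ix κ q o i (lv N κ X Z c i)) 1) j : ℕ) ≤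
      s + j * (p * N) :=
  D1_lz_iter_le N p hp s (fun i _ => ix κ q o i (lv N κ X Z c i)) (fun _ _ => 1) j

theorem lf_le (N p κ q X Z c o s : ℕ) (hp1 : 1 ≤ p) :
    lf N p κ q X Z c o s ≤ s + 2 * κ * (p * N) :=
  D2_lf_iter_le N p κ q X Z c o s hp1 (2 * κ)

theorem D2_tt_le (N A h τ i : ℕ) : tt N A h τ i ≤ i := by
  induction i with
  | zero => exact le_refl _
  | succ i ih =>
    show (if tt N A h τ i = i ∧ sl N A τ (h - 1 - i) ≠ 2 then tt N A h τ i + 1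
      else tt N A h τ i) ≤ i + 1
    split_ifs <;> omega

theorem D2_st_le (N p κ q M X Z τ s : ℕ) (hp : 1 ≤ p) :
    st N p κ q M X Z τ s ≤ s + (2 * κ * (p * N) + N * (2 * κ) * (p * N)) := by
  unfold st
  split_ifs
  · refine (lf_le _ _ _ _ _ _ _ _ _ hp).trans ?_
    omega
  · refine (lo_le _ _ _ _ _ _ _ _ hp).trans ?_
    omega
  · omega

theorem D2_rn_le (N p κ q M X Z m : ℕ) (hp : 1 ≤ p) :
    rn N p κ q M X Z m ≤ m * (2 * κ * (p * N) + N * (2 * κ) * (p * N)) := by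
  induction m with
  | zero => exact Nat.zero_le _
  | succ m ih =>
    show st N p κ q M X Z m (rn N p κ q M X Z m) ≤ _
    refine (D2_st_le _ _ _ _ _ _ _ _ _ hp).trans ?_
    rw [Nat.add_mul, Nat.one_mul]
    exact Nat.add_le_add_right ih _

section D

variable {α : Type} [Ctx α] {bd N p κ q M X Z : α → ℕ}

theorem Cmp.lv {c i : α → ℕ} (hN : Cmp bd N) (hκ : Cmp bd κ) (hX : Cmp bd X) (hZ : Cmp bd Z)
    (hc : Cmp bd c) (hi : Cmp bd i) :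
    Cmp bd (fun a => lv (N a) (κ a) (X a) (Z a) (c a) (i a)) := by
  unfold SP.lv
  have h2κ : Cmp bd (fun a => 2 * κ a) := Cmp.mul (Cmp.const 2) hκ
  have e1 : Cmp bd (fun a => (κ a - c a) * (2 * κ a) + i a) := Cmp.add (Cmp.mul (Cmp.sub hκ hc) h2κ) hi
  have e2 : Cmp bd (fun a => (c a - κ a) * (2 * κ a) - i a - 1) :=
    Cmp.sub (Cmp.sub (Cmp.mul (Cmp.sub hc hκ) h2κ) hi) (Cmp.const 1)
  exact Cmp.ite (CmpP.le hc hκ)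
    (Cmp.ite (CmpP.lt e1 (Cmp.log hX)) (Cmp.add (Cmp.const 1) (Cmp.dg hN (Cmp.const 2) hX e1))
      (Cmp.const 0))
    (Cmp.ite (CmpP.lt e2 (Cmp.log hZ)) (Cmp.add (Cmp.const 3) (Cmp.dg hN (Cmp.const 2) hZ e2))
      (Cmp.const 0))

theorem Cmp.lf {c o s : α → ℕ} (hN : Cmp bd N) (hp : Cmp bd p) (hp1 : ∀ a, 1 ≤ p a)
    (hκ : Cmp bd κ) (hq : Cmp bd q) (hX : Cmp bd X) (hZ : Cmp bd Z) (hc : Cmp bd c) (ho : Cmp bd o)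
    (hs : Cmp bd s) :
    Cmp bd (fun a => lf (N a) (p a) (κ a) (q a) (X a) (Z a) (c a) (o a) (s a)) := by
  unfold SP.lf
  refine Cmp.natRec (m := fun a => 2 * κ a) (h := fun x : α × ℕ × ℕ => SP.up (N x.1) (p x.1)
    x.2.2 (SP.ix (κ x.1) (q x.1) (o x.1) x.2.1
      (SP.lv (N x.1) (κ x.1) (X x.1) (Z x.1) (c x.1) x.2.1)) 1)
    hs (Cmp.mul (Cmp.const 2) hκ)
    (Cmp.up hN.wk hp.wk (Cmp.ih bd) (Cmp.ix hκ.wk hq.wk ho.wk (Cmp.y bd)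
      (Cmp.lv hN.wk hκ.wk hX.wk hZ.wk hc.wk (Cmp.y bd))) (Cmp.const 1)) ?_
  obtain ⟨C, hC⟩ := (hs.add ((Cmp.mul (Cmp.const 2) hκ).mul (hp.mul hN))).pb
  refine ⟨C, fun a y hy => le_trans ?_ (hC a)⟩
  refine le_trans (D2_lf_iter_le (N a) (p a) (κ a) (q a) (X a) (Z a) (c a) (o a) (s a) (hp1 a) y) ?_
  exact Nat.add_le_add_left (Nat.mul_le_mul_right _ hy) _

theorem Cmp.sl {A τ l : α → ℕ} (hN : Cmp bd N) (hA : Cmp bd A) (hτ : Cmp bd τ) (hl : Cmp bd l) :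
    Cmp bd (fun a => sl (N a) (A a) (τ a) (l a)) := by
  unfold SP.sl
  exact Cmp.mod (Cmp.mod (Cmp.div hτ (Cmp.pw hN hA hl)) hA) (Cmp.const 3)

theorem Cmp.tt {A h τ i : α → ℕ} (hN : Cmp bd N) (hA : Cmp bd A) (hh : Cmp bd h) (hτ : Cmp bd τ)
    (hi : Cmp bd i) : Cmp bd (fun a => tt (N a) (A a) (h a) (τ a) (i a)) := by
  unfold SP.tt
  refine Cmp.natRec (h := fun x : α × ℕ × ℕ => if x.2.2 = x.2.1 ∧
    SP.sl (N x.1) (A x.1) (τ x.1) (h x.1 - 1 - x.2.1) ≠ 2 then x.2.2 + 1 else x.2.2)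
    (Cmp.const 0) hi
    (Cmp.ite (CmpP.and (CmpP.eq (Cmp.ih bd) (Cmp.y bd)) (CmpP.not (CmpP.eq
      (Cmp.sl hN.wk hA.wk hτ.wk (Cmp.sub (Cmp.sub hh.wk (Cmp.const 1)) (Cmp.y bd))) (Cmp.const 2))))
      (Cmp.add (Cmp.ih bd) (Cmp.const 1)) (Cmp.ih bd)) ?_
  obtain ⟨C, hC⟩ := hi.pb
  refine ⟨C, fun a y hy => le_trans ?_ ((hC a))⟩
  exact (D2_tt_le (N a) (A a) (h a) (τ a) y).trans hy

theorem Cmp.cc {A h τ i : α → ℕ} (hN : Cmp bd N) (hA : Cmp bd A) (hh : Cmp bd h) (hτ : Cmp bd τ)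
    (hi : Cmp bd i) : Cmp bd (fun a => cc (N a) (A a) (h a) (τ a) (i a)) := by
  unfold SP.cc
  exact Cmp.sum (h := fun x : α × ℕ => SP.sl (N x.1) (A x.1) (τ x.1) (h x.1 - 1 - x.2)) hi
    (Cmp.sl hN.wk1 hA.wk1 hτ.wk1 (Cmp.sub (Cmp.sub hh.wk1 (Cmp.const 1)) (Cmp.i bd)))

theorem Cmp.st {τ s : α → ℕ} (hN : Cmp bd N) (hp : Cmp bd p) (hp1 : ∀ a, 1 ≤ p a)
    (hκ : Cmp bd κ) (hq : Cmp bd q) (hM : Cmp bd M) (hX : Cmp bd X) (hZ : Cmp bd Z)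
    (hτ : Cmp bd τ) (hs : Cmp bd s) :
    Cmp bd (fun a => st (N a) (p a) (κ a) (q a) (M a) (X a) (Z a) (τ a) (s a)) := by
  unfold SP.st
  have hA : Cmp bd (fun a => 3 * p a) := Cmp.mul (Cmp.const 3) hp
  have h2κ : Cmp bd (fun a => 2 * κ a) := Cmp.mul (Cmp.const 2) hκ
  have ht := Cmp.tt hN hA h2κ hτ h2κ
  have hc1 := Cmp.cc hN hA h2κ hτ h2κ
  have hc2 := Cmp.cc hN hA h2κ hτ ht
  have hw := Cmp.pw hN hA (Cmp.sub (Cmp.sub h2κ (Cmp.const 1)) ht)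
  exact Cmp.ite (CmpP.eq ht h2κ)
    (Cmp.lf hN hp hp1 hκ hq hX hZ hc1 (Cmp.mod (Cmp.add h2κ hc1) (Cmp.const 3)) hs)
    (Cmp.ite (CmpP.eq (Cmp.mod hτ hw) (Cmp.const 0))
      (Cmp.lo hN hp hp1 hκ hq hM (Cmp.mod (Cmp.add ht hc2) (Cmp.const 3))
        (Cmp.add (Cmp.div (Cmp.mod (Cmp.div hτ hw) hA) (Cmp.const 3)) (Cmp.const 1)) hs) hs)

theorem Cmp.rn {m : α → ℕ} (hN : Cmp bd N) (hp : Cmp bd p) (hp1 : ∀ a, 1 ≤ p a)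
    (hκ : Cmp bd κ) (hq : Cmp bd q) (hM : Cmp bd M) (hX : Cmp bd X) (hZ : Cmp bd Z)
    (hm : Cmp bd m) :
    Cmp bd (fun a => rn (N a) (p a) (κ a) (q a) (M a) (X a) (Z a) (m a)) := by
  unfold SP.rn
  refine Cmp.natRec (h := fun x : α × ℕ × ℕ => SP.st (N x.1) (p x.1) (κ x.1) (q x.1) (M x.1)
    (X x.1) (Z x.1) x.2.1 x.2.2) (Cmp.const 0) hm
    (Cmp.st hN.wk hp.wk (fun x => hp1 x.1) hκ.wk hq.wk hM.wk hX.wk hZ.wk (Cmp.y bd) (Cmp.ih bd)) ?_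
  have h2κ : Cmp bd (fun a => 2 * κ a) := Cmp.mul (Cmp.const 2) hκ
  obtain ⟨C, hC⟩ := (hm.mul ((h2κ.mul (hp.mul hN)).add ((hN.mul h2κ).mul (hp.mul hN)))).pb
  refine ⟨C, fun a y hy => le_trans ?_ (hC a)⟩
  refine le_trans (D2_rn_le (N a) (p a) (κ a) (q a) (M a) (X a) (Z a) y (hp1 a)) ?_
  exact Nat.mul_le_mul_right _ hy

theorem Cmp.ot (hN : Cmp bd N) (hp : Cmp bd p) (hp1 : ∀ a, 1 ≤ p a)
    (hκ : Cmp bd κ) (hq : Cmp bd q) (hM : Cmp bd M) (hX : Cmp bd X) (hZ : Cmp bd Z) :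
    Cmp bd (fun a => ot (N a) (p a) (κ a) (q a) (M a) (X a) (Z a)) := by
  unfold SP.ot
  have h2κ : Cmp bd (fun a => 2 * κ a) := Cmp.mul (Cmp.const 2) hκ
  have hr : Cmp bd (fun a => SP.rn (N a) (p a) (κ a) (q a) (M a) (X a) (Z a)
      (SP.pw (N a) (3 * p a) (2 * κ a))) :=
    Cmp.rn hN hp hp1 hκ hq hM hX hZ (Cmp.pw hN (Cmp.mul (Cmp.const 3) hp) h2κ)
  refine Cmp.ite (CmpP.bex (P := fun x : α × ℕ =>
    SP.dg (N x.1) (p x.1) (SP.rn (N x.1) (p x.1) (κ x.1) (q x.1) (M x.1) (X x.1) (Z x.1)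
      (SP.pw (N x.1) (3 * p x.1) (2 * κ x.1))) (SP.ix (κ x.1) (q x.1) 0 0 x.2) = 1 ∧
    SP.dg (N x.1) (q x.1) (M x.1) (q x.1 * q x.1 * q x.1 + x.2) = 1) hq ?_)
    (Cmp.const 1) (Cmp.const 0)
  exact CmpP.and
    (CmpP.eq (Cmp.dg hN.wk1 hp.wk1 hr.wk1 (Cmp.ix hκ.wk1 hq.wk1 (Cmp.const 0) (Cmp.const 0)
      (Cmp.i bd))) (Cmp.const 1))
    (CmpP.eq (Cmp.dg hN.wk1 hq.wk1 hM.wk1 (Cmp.add (Cmp.mul (Cmp.mul hq.wk1 hq.wk1) hq.wk1)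
      (Cmp.i bd))) (Cmp.const 1))

end D

end Pool.Agent.helper12.SP
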